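import Mathlib
import Pool.Agent.Results.MP_b124ce_co.RestrictionFailsH

/-!
# When does the restriction of an IE-operator inherit condition (H)?

For a subset `X` of a set `S`, the restrictions to `X` of all IE-operators on `S` with (C) and (H)
satisfy (H) if and only if `X` or its complement is finite; and then (C) is not needed.
-/

set_option autoImplicit false

namespace Pool.Agent.Results.MP_b124ce_co.RestrictionInheritsHIff

open Set

universe u

/-- IE-operator on the set of all points of the type `S`: (cl1), (cl2), (cl3) and (cl4'). -/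
structure IsIEOperator {S : Type u} (f : Set S → Set S) : Prop where
  cl1 : ∀ X, X ⊆ f X
  cl2 : ∀ X Y, X ⊆ Y → f X ⊆ f Y
  cl3 : ∀ X, f (f X) = f X
  cl4' : ∀ X Y : Set S, ∀ p, p ∈ f Y → p ∉ f (Y \ X) → ∃ x ∈ X, x ∈ f (insert p (Y \ {x}))

/-- `X` is independent for `f`. -/
def IsIndependent {S : Type u} (f : Set S → Set S) (X : Set S) : Prop := ∀ x ∈ X, x ∉ f (X \ {x})

/-- `X` is spanning for `f`. -/
def IsSpanning {S : Type u} (f : Set S → Set S) (X : Set S) : Prop := f X = univ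

/-- Condition (C). -/
def CondC {S : Type u} (f : Set S → Set S) : Prop :=
  ∀ (Y : Set S) (p : S), p ∈ f Y →
    ∃ U : Set S, Minimal (fun W : Set S => W ⊆ Y ∧ p ∈ f W) U ∧ IsIndependent f U

/-- Condition (H). -/
def CondH {S : Type u} (f : Set S → Set S) : Prop :=
  ∀ (Y : Set S) (p : S), p ∉ f Y →
    ∃ V : Set S, Maximal (fun W : Set S => Y ⊆ W ∧ p ∉ f W) V ∧ IsSpanning f (insert p V)

/-- The restriction of `f` to `X`, an operator on the points of `X`: `Y ↦ f Y ∩ X`. -/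
def restrict {S : Type u} (f : Set S → Set S) (X : Set S) : Set X → Set X :=
  fun Y => {x : X | (x : S) ∈ f (Subtype.val '' Y)}

section
variable {S : Type u} {f : Set S → Set S}

/-- The exchange property for single elements. -/
theorem IsIEOperator.exch (hf : IsIEOperator f) {A : Set S} {x p : S} (h1 : p ∈ f (insert x A))
    (h2 : p ∉ f A) : x ∈ f (insert p A) := by
  obtain ⟨y, hy, h⟩ := hf.cl4' {x} (insert x A) p h1 fun h => h2 (hf.cl2 _ _ (by
    rintro z ⟨hz | hz, hz'⟩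
    · exact absurd hz hz'
    · exact hz) h)
  rw [mem_singleton_iff.1 hy] at h
  refine hf.cl2 _ _ (insert_subset_insert ?_) h
  rintro z ⟨hz | hz, hz'⟩
  · exact absurd hz hz'
  · exact hz

/-- Condition (H) for the restriction to `X`, without maximality. -/
def HX (f : Set S → Set S) (X : Set S) : Prop :=
  ∀ Y ⊆ X, ∀ p ∈ X, p ∉ f Y → ∃ V, Y ⊆ V ∧ V ⊆ X ∧ p ∉ f V ∧ X ⊆ f (insert p V)

theorem HX_univ (h : CondH f) : HX f univ := by
  intro Y _ p _ hp
  obtain ⟨V, hV, hs⟩ := h Y p hp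
  exact ⟨V, hV.1.1, subset_univ _, hV.1.2, fun x _ => by rw [hs]; trivial⟩

theorem HX.condH (hf : IsIEOperator f) {X : Set S} (h : HX f X) : CondH (restrict f X) := by
  intro Y p hp
  obtain ⟨V, hYV, hVX, hpV, hs⟩ := h (Subtype.val '' Y) (by rintro _ ⟨y, -, rfl⟩; exact y.2) p.1
    p.2 hp
  have hV1 : Subtype.val '' (Subtype.val ⁻¹' f V : Set X) ⊆ f V := by
    rintro _ ⟨y, hy, rfl⟩
    exact hy
  have hV2 : V ⊆ Subtype.val '' (Subtype.val ⁻¹' f V : Set X) := fun x hx =>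
    ⟨⟨x, hVX hx⟩, hf.cl1 V hx, rfl⟩
  refine ⟨Subtype.val ⁻¹' f V, ⟨⟨?_, ?_⟩, ?_⟩, ?_⟩
  · intro y hy
    exact hf.cl1 V (hYV ⟨y, hy, rfl⟩)
  · intro h1
    apply hpV
    rw [← hf.cl3 V]
    exact hf.cl2 _ _ hV1 h1
  · rintro W ⟨-, hW⟩ hVW w hw
    by_contra hwV
    apply hW
    have h1 : p.1 ∈ f (insert w.1 V) := hf.exch (hs w.2) hwV
    have hwW : (w : S) ∈ Subtype.val '' W := ⟨w, hw, rfl⟩
    refine hf.cl2 _ _ (insert_subset hwW ?_) h1
    intro x hx
    obtain ⟨y, hy, rfl⟩ := hV2 hx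
    exact ⟨y, hVW hy, rfl⟩
  · refine eq_univ_of_forall fun x => ?_
    refine hf.cl2 _ _ ?_ (hs x.2)
    rw [image_insert_eq]
    exact insert_subset_insert hV2

theorem HX_finite (hf : IsIEOperator f) {X : Set S} (hX : X.Finite) : HX f X := by
  intro Y hY p hp hpY
  have hfin : {W : Set S | Y ⊆ W ∧ W ⊆ X ∧ p ∉ f W}.Finite :=
    hX.finite_subsets.subset fun W hW => hW.2.1
  have hne : {W : Set S | Y ⊆ W ∧ W ⊆ X ∧ p ∉ f W}.Nonempty := ⟨Y, Subset.rfl, hY, hpY⟩
  obtain ⟨V, hV⟩ := hfin.exists_maximal hne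
  refine ⟨V, hV.1.1, hV.1.2.1, hV.1.2.2, fun x hx => ?_⟩
  by_cases hxV : x ∈ V
  · exact hf.cl1 _ (Or.inr hxV)
  · apply hf.exch _ hV.1.2.2
    by_contra hcon
    have h1 := hV.2 (y := insert x V) ⟨hV.1.1.trans (subset_insert _ _),
      insert_subset hx hV.1.2.1, hcon⟩ (subset_insert _ _)
    exact hxV (h1 (Or.inl rfl))

theorem HX_diff (hf : IsIEOperator f) {X : Set S} (h : HX f X) (s : S) : HX f (X \ {s}) := by
  intro Y hY p hp hpY
  obtain ⟨V, hYV, hVX, hpV, hs⟩ := h Y (hY.trans sdiff_subset) p hp.1 hpY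
  have hsY : s ∉ Y := fun h1 => (hY h1).2 rfl
  have hY1 : Y ⊆ V \ {s} := fun y hy => ⟨hYV hy, fun h1 => hsY (mem_singleton_iff.1 h1 ▸ hy)⟩
  have hp1 : p ∉ f (V \ {s}) := fun h1 => hpV (hf.cl2 _ _ sdiff_subset h1)
  by_cases hsV : s ∈ V
  · by_cases hw : X \ {s} ⊆ f (insert p (V \ {s}))
    · exact ⟨V \ {s}, hY1, fun v hv => ⟨hVX hv.1, hv.2⟩, hp1, hw⟩
    · obtain ⟨w, hwX, hwV⟩ := not_subset.1 hw
      have hVs : insert s (insert p (V \ {s})) = insert p V := by
        rw [insert_comm, insert_sdiff_singleton, insert_eq_of_mem hsV]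
      have h1 : s ∈ f (insert w (insert p (V \ {s}))) := by
        refine hf.exch ?_ hwV
        rw [hVs]
        exact hs hwX.1
      refine ⟨insert w (V \ {s}), hY1.trans (subset_insert _ _),
        insert_subset hwX fun v hv => ⟨hVX hv.1, hv.2⟩, ?_, ?_⟩
      · intro h2
        exact hwV (hf.exch h2 hp1)
      · intro x hx
        rw [insert_comm] at h1
        have h3 : insert p V ⊆ f (insert p (insert w (V \ {s}))) := by
          refine insert_subset (hf.cl1 _ (Or.inl rfl)) fun v hv => ?_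
          by_cases hvs : v = s
          · rw [hvs]
            exact h1
          · exact hf.cl1 _ (Or.inr (Or.inr ⟨hv, hvs⟩))
        rw [← hf.cl3]
        exact hf.cl2 _ _ h3 (hs hx.1)
  · refine ⟨V, hYV, fun v hv => ⟨hVX hv, fun h1 => hsV (mem_singleton_iff.1 h1 ▸ hv)⟩, hpV, ?_⟩
    exact fun x hx => hs hx.1

theorem HX_cofinite (hf : IsIEOperator f) (h : CondH f) {X : Set S} (hX : Xᶜ.Finite) :
    HX f X := by
  have h1 : ∀ T : Finset S, HX f (univ \ (T : Set S)) := by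
    classical
    intro T
    induction T using Finset.induction_on with
    | empty =>
      rw [Finset.coe_empty, sdiff_empty]
      exact HX_univ h
    | insert a T _ ih =>
      have h2 := HX_diff hf ih a
      have h3 : (univ : Set S) \ ((insert a T : Finset S) : Set S) = (univ \ (T : Set S)) \ {a} := by
        ext x
        simp only [Finset.coe_insert, mem_sdiff, mem_univ, true_and, mem_insert_iff,
          Finset.mem_coe, mem_singleton_iff, not_or]
        tauto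
      rw [h3]
      exact h2
  have h2 := h1 hX.toFinset
  rw [Finite.coe_toFinset] at h2
  have h3 : (univ : Set S) \ Xᶜ = X := by
    ext x
    simp
  rwa [h3] at h2

end

section
variable {S₀ : Type} {S : Type u} (ι : S₀ → S) (f₀ : Set S₀ → Set S₀)

/-- The extension of an operator by loops. -/
def ext (A : Set S) : Set S := ι '' f₀ (ι ⁻¹' A) ∪ (range ι)ᶜ

variable {ι f₀}

theorem mem_ext (hι : Function.Injective ι) {A : Set S} {x : S₀} :
    ι x ∈ ext ι f₀ A ↔ x ∈ f₀ (ι ⁻¹' A) := by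
  constructor
  · rintro (⟨y, hy, h⟩ | h)
    · rwa [← hι h]
    · exact absurd ⟨x, rfl⟩ h
  · intro h
    exact Or.inl ⟨x, h, rfl⟩

theorem preimage_ext (hι : Function.Injective ι) (A : Set S) :
    ι ⁻¹' ext ι f₀ A = f₀ (ι ⁻¹' A) := by
  ext x
  exact mem_ext hι

theorem pre_insert (hι : Function.Injective ι) (A : Set S) (x : S₀) :
    ι ⁻¹' (insert (ι x) A) = insert x (ι ⁻¹' A) := by
  ext y
  simp only [mem_preimage, mem_insert_iff, hι.eq_iff]

theorem pre_diff (hι : Function.Injective ι) (A : Set S) (x : S₀) :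
    ι ⁻¹' (A \ {ι x}) = (ι ⁻¹' A) \ {x} := by
  ext y
  simp only [mem_preimage, mem_sdiff, mem_singleton_iff, hι.eq_iff]

open RestrictionFailsH in
theorem ext_IE (hι : Function.Injective ι) (h : RestrictionFailsH.IsIEOperator f₀) :
    IsIEOperator (ext ι f₀) := by
  refine ⟨?_, ?_, ?_, ?_⟩
  · intro A x hx
    by_cases h1 : x ∈ range ι
    · obtain ⟨y, rfl⟩ := h1
      exact (mem_ext hι).2 (h.cl1 _ hx)
    · exact Or.inr h1
  · intro A B hAB x hx
    by_cases h1 : x ∈ range ι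
    · obtain ⟨y, rfl⟩ := h1
      rw [mem_ext hι] at hx ⊢
      exact h.cl2 _ _ (preimage_mono hAB) hx
    · exact Or.inr h1
  · intro A
    show ι '' f₀ (ι ⁻¹' ext ι f₀ A) ∪ (range ι)ᶜ = _
    rw [preimage_ext hι, h.cl3]
    rfl
  · intro X Y p hp hpX
    by_cases h1 : p ∈ range ι
    · obtain ⟨q, rfl⟩ := h1
      rw [mem_ext hι] at hp hpX
      obtain ⟨x, hx, hx2⟩ := h.cl4' (ι ⁻¹' X) (ι ⁻¹' Y) q hp hpX
      refine ⟨ι x, hx, ?_⟩
      rw [mem_ext hι, pre_insert hι, pre_diff hι]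
      exact hx2
    · exact absurd (Or.inr h1) hpX

theorem ext_C (hι : Function.Injective ι) (h : RestrictionFailsH.CondC f₀) :
    CondC (ext ι f₀) := by
  intro Y p hp
  by_cases h1 : p ∈ range ι
  · obtain ⟨q, rfl⟩ := h1
    rw [mem_ext hι] at hp
    obtain ⟨U, hU, hi⟩ := h _ q hp
    refine ⟨ι '' U, ⟨⟨?_, ?_⟩, ?_⟩, ?_⟩
    · rintro _ ⟨x, hx, rfl⟩
      exact hU.1.1 hx
    · rw [mem_ext hι, preimage_image_eq _ hι]
      exact hU.1.2
    · rintro W ⟨hW1, hW2⟩ hWU
      rw [mem_ext hι] at hW2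
      have h2 : ι ⁻¹' W ⊆ U := by
        intro x hx
        obtain ⟨y, hy, h3⟩ := hWU hx
        rwa [← hι h3]
      have h3 := hU.2 (y := ι ⁻¹' W) ⟨preimage_mono hW1, hW2⟩ h2
      rintro _ ⟨x, hx, rfl⟩
      exact h3 hx
    · rintro _ ⟨x, hx, rfl⟩ h2
      rw [mem_ext hι, pre_diff hι, preimage_image_eq _ hι] at h2
      exact hi x hx h2
  · refine ⟨∅, ⟨⟨empty_subset _, Or.inr h1⟩, fun W _ _ => empty_subset _⟩, ?_⟩
    intro x hx
    exact absurd hx (notMem_empty x)

theorem ext_H (hι : Function.Injective ι) (h : RestrictionFailsH.CondH f₀) :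
    CondH (ext ι f₀) := by
  intro Y p hp
  by_cases h1 : p ∈ range ι
  · obtain ⟨q, rfl⟩ := h1
    rw [mem_ext hι] at hp
    obtain ⟨V, hV, hs⟩ := h _ q hp
    have hpre : ι ⁻¹' (ι '' V ∪ (range ι)ᶜ) = V := by
      ext x
      simp only [mem_preimage, mem_union, mem_image, hι.eq_iff, exists_eq_right, mem_compl_iff,
        mem_range, exists_eq, not_true_eq_false, or_false]
    refine ⟨ι '' V ∪ (range ι)ᶜ, ⟨⟨?_, ?_⟩, ?_⟩, ?_⟩
    · intro y hy
      by_cases h2 : y ∈ range ι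
      · obtain ⟨z, rfl⟩ := h2
        exact Or.inl ⟨z, hV.1.1 hy, rfl⟩
      · exact Or.inr h2
    · rw [mem_ext hι, hpre]
      exact hV.1.2
    · rintro W ⟨hW1, hW2⟩ hVW
      rw [mem_ext hι] at hW2
      have h3 := hV.2 (y := ι ⁻¹' W) ⟨preimage_mono hW1, hW2⟩ (by
        intro x hx
        exact hVW (Or.inl ⟨x, hx, rfl⟩))
      intro w hw
      by_cases h2 : w ∈ range ι
      · obtain ⟨z, rfl⟩ := h2
        exact Or.inl ⟨z, h3 hw, rfl⟩
      · exact Or.inr h2
    · refine eq_univ_of_forall fun x => ?_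
      by_cases h2 : x ∈ range ι
      · obtain ⟨z, rfl⟩ := h2
        have hs' : f₀ (insert q V) = univ := hs
        rw [mem_ext hι, pre_insert hι, hpre, hs']
        trivial
      · exact Or.inr h2
  · exact absurd (Or.inr h1) hp

theorem ext_fail (hι : Function.Injective ι) {X : Set S} {X₀ : Set S₀} (hX : ι ⁻¹' X = X₀)
    (h : CondH (restrict (ext ι f₀) X)) : RestrictionFailsH.CondH
      (RestrictionFailsH.restrict f₀ X₀) := by
  subst hX
  have hpre : ∀ Y : Set (ι ⁻¹' X), ι ⁻¹' (Subtype.val '' ((fun x : (ι ⁻¹' X : Set S₀) =>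
      (⟨ι x.1, x.2⟩ : X)) '' Y)) = Subtype.val '' Y := by
    intro Y
    ext x
    constructor
    · rintro ⟨_, ⟨z, hz, rfl⟩, h2⟩
      exact ⟨z, hz, hι h2⟩
    · rintro ⟨z, hz, rfl⟩
      exact ⟨_, ⟨z, hz, rfl⟩, rfl⟩
  intro Y p hp
  obtain ⟨V, hV, hs⟩ := h ((fun x : (ι ⁻¹' X : Set S₀) => (⟨ι x.1, x.2⟩ : X)) '' Y)
    ⟨ι p.1, p.2⟩ (by
      intro h1
      have h2 : ι p.1 ∈ ext ι f₀ _ := h1
      rw [mem_ext hι, hpre] at h2
      exact hp h2)
  have hVp : ι ⁻¹' (Subtype.val '' V) = Subtype.val '' ((fun x : (ι ⁻¹' X : Set S₀) =>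
      (⟨ι x.1, x.2⟩ : X)) ⁻¹' V) := by
    ext x
    constructor
    · rintro ⟨z, hz, h2⟩
      have hx : x ∈ ι ⁻¹' X := by
        show ι x ∈ X
        rw [← h2]
        exact z.2
      refine ⟨⟨x, hx⟩, ?_, rfl⟩
      show (⟨ι x, hx⟩ : X) ∈ V
      have h3 : (⟨ι x, hx⟩ : X) = z := Subtype.ext h2.symm
      rwa [h3]
    · rintro ⟨z, hz, rfl⟩
      exact ⟨_, hz, rfl⟩
  refine ⟨(fun x : (ι ⁻¹' X : Set S₀) => (⟨ι x.1, x.2⟩ : X)) ⁻¹' V, ⟨⟨?_, ?_⟩, ?_⟩, ?_⟩
  · intro y hy
    exact hV.1.1 ⟨y, hy, rfl⟩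
  · intro h1
    apply hV.1.2
    show ι p.1 ∈ ext ι f₀ _
    rw [mem_ext hι, hVp]
    exact h1
  · rintro W ⟨hW1, hW2⟩ hVW
    have h3 := hV.2 (y := V ∪ (fun x : (ι ⁻¹' X : Set S₀) => (⟨ι x.1, x.2⟩ : X)) '' W)
      ⟨hV.1.1.trans subset_union_left, ?_⟩ subset_union_left
    · intro w hw
      exact h3 (Or.inr ⟨w, hw, rfl⟩)
    · intro h1
      have h2 : ι p.1 ∈ ext ι f₀ _ := h1
      rw [mem_ext hι, image_union, preimage_union, hpre, hVp, ← image_union,
        union_eq_self_of_subset_left hVW] at h2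
      exact hW2 h2
  · refine eq_univ_of_forall fun x => ?_
    have hs' : restrict (ext ι f₀) X (insert ⟨ι p.1, p.2⟩ V) = univ := hs
    have h1 : (⟨ι x.1, x.2⟩ : X) ∈ restrict (ext ι f₀) X (insert ⟨ι p.1, p.2⟩ V) := by
      rw [hs']
      trivial
    have h2 : ι x.1 ∈ ext ι f₀ _ := h1
    rw [mem_ext hι, image_insert_eq, pre_insert hι, hVp] at h2
    show x.1 ∈ f₀ _
    rw [image_insert_eq]
    exact h2

end

/-- For a subset `X` of a set `S` the following are equivalent: (1) for every IE-operator on `S`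
with (C) and (H), the restriction to `X` satisfies (H); (2) for every IE-operator on `S` with (H),
the restriction to `X` satisfies (H); (3) `X` is finite or the complement of `X` is finite. -/
theorem result {S : Type u} (X : Set S) : List.TFAE
    [∀ f : Set S → Set S, IsIEOperator f → CondC f → CondH f → CondH (restrict f X),
     ∀ f : Set S → Set S, IsIEOperator f → CondH f → CondH (restrict f X),
     X.Finite ∨ Xᶜ.Finite] := by
  tfae_have 3 → 2 := by
    rintro (h | h) f hf hH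
    · exact (HX_finite hf h).condH hf
    · exact (HX_cofinite hf hH h).condH hf
  tfae_have 2 → 1 := fun h f hf _ hH => h f hf hH
  tfae_have 1 → 3 := by
    intro h
    by_contra hcon
    rw [not_or] at hcon
    obtain ⟨f₀, X₀, h1, h2, h3, h4⟩ := RestrictionFailsH.result
    have i1 : Infinite X := infinite_coe_iff.2 hcon.1
    have i2 : Infinite (Xᶜ : Set S) := infinite_coe_iff.2 hcon.2
    classical
    obtain ⟨ε, hε⟩ := Countable.exists_injective_nat (ℕ × Fin 3)
    let e1 : ℕ ↪ X := Infinite.natEmbedding X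
    let e2 : ℕ ↪ (Xᶜ : Set S) := Infinite.natEmbedding _
    let ι : ℕ × Fin 3 → S := fun x => if x ∈ X₀ then (e1 (ε x) : S) else (e2 (ε x) : S)
    have hιX : ι ⁻¹' X = X₀ := by
      ext x
      by_cases hx : x ∈ X₀
      · simp only [mem_preimage, ι, hx, iff_true]
        exact (e1 (ε x)).2
      · simp only [mem_preimage, ι, hx, iff_false]
        exact (e2 (ε x)).2
    have hι : Function.Injective ι := by
      intro x y hxy
      have hxy' : x ∈ X₀ ↔ y ∈ X₀ := by
        rw [← hιX, mem_preimage, mem_preimage, hxy]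
      by_cases hx : x ∈ X₀
      · have hy := hxy'.1 hx
        simp only [ι, if_pos hx, if_pos hy] at hxy
        exact hε (e1.injective (Subtype.ext hxy))
      · have hy : y ∉ X₀ := fun h => hx (hxy'.2 h)
        simp only [ι, if_neg hx, if_neg hy] at hxy
        exact hε (e2.injective (Subtype.ext hxy))
    exact h4 (ext_fail hι hιX (h (ext ι f₀) (ext_IE hι h1) (ext_C hι h2) (ext_H hι h3)))
  tfae_finish

end Pool.Agent.Results.MP_b124ce_co.RestrictionInheritsHIff
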